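import Mathlib

set_option autoImplicit false

namespace Pool.Agent.Results.MP_b542c4_co.Astral

open Complex

/-- Combinatorial configuration `(n_4)`; `I i j` means that point `i` lies on line `j`. -/
def IsConfig {n : ℕ} (I : Fin n → Fin n → Prop) : Prop :=
  (∀ j, {i | I i j}.ncard = 4) ∧ (∀ i, {j | I i j}.ncard = 4) ∧
  ∀ i i' j j', i ≠ i' → I i j → I i' j → I i j' → I i' j' → j = j'

/-- Realization in the Euclidean plane `ℂ`: distinct points, distinct straight lines, exactly the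
incidences of `I`. -/
def Realizes {n : ℕ} (I : Fin n → Fin n → Prop) (p : Fin n → ℂ) (L : Fin n → Set ℂ) : Prop :=
  Function.Injective p ∧ Function.Injective L ∧
  (∀ j, ∃ a b c : ℝ, (a ≠ 0 ∨ b ≠ 0) ∧ L j = {z | a * z.re + b * z.im = c}) ∧
  ∀ i j, p i ∈ L j ↔ I i j

/-- Realization in the rational plane `ℚ × ℚ`. -/
def RatRealizes {n : ℕ} (I : Fin n → Fin n → Prop) (q : Fin n → ℚ × ℚ)
    (M : Fin n → Set (ℚ × ℚ)) : Prop :=
  Function.Injective q ∧ Function.Injective M ∧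
  (∀ j, ∃ a b c : ℚ, (a ≠ 0 ∨ b ≠ 0) ∧ M j = {z | a * z.1 + b * z.2 = c}) ∧
  ∀ i j, q i ∈ M j ↔ I i j

/-- A symmetry: an isometry of the plane mapping the point set and the line set onto themselves. -/
def Sym {n : ℕ} (p : Fin n → ℂ) (L : Fin n → Set ℂ) (g : ℂ → ℂ) : Prop :=
  Isometry g ∧ g '' Set.range p = Set.range p ∧ (fun l => g '' l) '' Set.range L = Set.range L

/-- The unit complex number of argument `2π/m`. -/
noncomputable def om (m : ℕ) : ℂ := Complex.exp (2 * Real.pi * Complex.I / m)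

/-- `k`-astral 4-configuration with `n = k m` points: the symmetry group is the dihedral group `d_m`
(the `m` rotations by multiples of `2π/m` about a centre `c` and `m` reflections in lines through
`c`); `a` and `b` label the `k` point orbits and the `k` line orbits, each of size `m`; each point
orbit is the vertex set of a regular `m`-gon; each point (line) is incident with two lines (points)
from each of two orbits. -/
def KAstral (k m : ℕ) (I : Fin (k * m) → Fin (k * m) → Prop) (p : Fin (k * m) → ℂ)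
    (L : Fin (k * m) → Set ℂ) : Prop :=
  2 ≤ k ∧ 2 ≤ m ∧ IsConfig I ∧ Realizes I p L ∧
  (∃ c u : ℂ, ‖u‖ = 1 ∧ ∀ g, Sym p L g ↔ ∃ j : ℕ, (∀ z, g z = c + om m ^ j * (z - c)) ∨
    ∀ z, g z = c + u * om m ^ j * (starRingEnd ℂ) (z - c)) ∧
  ∃ a b : Fin (k * m) → Fin k,
    (∀ i i', a i = a i' ↔ ∃ g, Sym p L g ∧ g (p i) = p i') ∧
    (∀ j j', b j = b j' ↔ ∃ g, Sym p L g ∧ g '' L j = L j') ∧
    (∀ o, {i | a i = o}.ncard = m) ∧ (∀ o, {j | b j = o}.ncard = m) ∧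
    (∀ o, ∃ c z : ℂ, z ≠ c ∧ p '' {i | a i = o} = Set.range fun j : ℕ => c + om m ^ j * (z - c)) ∧
    (∀ i, ∃ o o', o ≠ o' ∧ {j | I i j ∧ b j = o}.ncard = 2 ∧ {j | I i j ∧ b j = o'}.ncard = 2) ∧
    ∀ j, ∃ o o', o ≠ o' ∧ {i | I i j ∧ a i = o}.ncard = 2 ∧ {i | I i j ∧ a i = o'}.ncard = 2

abbrev Z := ℤ√3
def PT : Fin 24 → Z × Z := ![(⟨2, 0⟩, ⟨0, 0⟩), (⟨0, 1⟩, ⟨1, 0⟩), (⟨1, 0⟩, ⟨0, 1⟩), (⟨0, 0⟩, ⟨2, 0⟩), (⟨-1, 0⟩, ⟨0, 1⟩), (⟨0, -1⟩, ⟨1, 0⟩), (⟨-2, 0⟩, ⟨0, 0⟩), (⟨0, -1⟩, ⟨-1, 0⟩), (⟨-1, 0⟩, ⟨0, -1⟩), (⟨0, 0⟩, ⟨-2, 0⟩), (⟨1, 0⟩, ⟨0, -1⟩), (⟨0, 1⟩, ⟨-1, 0⟩), (⟨-1, 1⟩, ⟨-1, 1⟩), (⟨2, -1⟩, ⟨1, 0⟩), (⟨-2, 1⟩, ⟨1, 0⟩), (⟨1, -1⟩, ⟨-1, 1⟩), (⟨-1, 0⟩, ⟨2, -1⟩), (⟨-1, 0⟩, ⟨-2, 1⟩), (⟨1, -1⟩, ⟨1, -1⟩), (⟨-2, 1⟩, ⟨-1, 0⟩), (⟨2, -1⟩, ⟨-1, 0⟩), (⟨-1, 1⟩, ⟨1, -1⟩), (⟨1, 0⟩, ⟨-2, 1⟩), (⟨1, 0⟩, ⟨2, -1⟩)]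
def NT : Fin 24 → Z × Z := ![(⟨-1, 0⟩, ⟨0, -1⟩), (⟨0, 0⟩, ⟨-2, 0⟩), (⟨1, 0⟩, ⟨0, -1⟩), (⟨0, 1⟩, ⟨-1, 0⟩), (⟨2, 0⟩, ⟨0, 0⟩), (⟨0, 1⟩, ⟨1, 0⟩), (⟨1, 0⟩, ⟨0, 1⟩), (⟨0, 0⟩, ⟨2, 0⟩), (⟨-1, 0⟩, ⟨0, 1⟩), (⟨0, -1⟩, ⟨1, 0⟩), (⟨-2, 0⟩, ⟨0, 0⟩), (⟨0, -1⟩, ⟨-1, 0⟩), (⟨2, -1⟩, ⟨-1, 0⟩), (⟨-1, 1⟩, ⟨1, -1⟩), (⟨1, 0⟩, ⟨-2, 1⟩), (⟨1, 0⟩, ⟨2, -1⟩), (⟨-1, 1⟩, ⟨-1, 1⟩), (⟨2, -1⟩, ⟨1, 0⟩), (⟨-2, 1⟩, ⟨1, 0⟩), (⟨1, -1⟩, ⟨-1, 1⟩), (⟨-1, 0⟩, ⟨2, -1⟩), (⟨-1, 0⟩, ⟨-2, 1⟩), (⟨1, -1⟩, ⟨1, -1⟩), (⟨-2, 1⟩, ⟨-1, 0⟩)]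
def CT : Fin 24 → Z := ![⟨-2, 0⟩, ⟨-2, 0⟩, ⟨-2, 0⟩, ⟨-2, 0⟩, ⟨-2, 0⟩, ⟨-2, 0⟩, ⟨-2, 0⟩, ⟨-2, 0⟩, ⟨-2, 0⟩, ⟨-2, 0⟩, ⟨-2, 0⟩, ⟨-2, 0⟩, ⟨-4, 2⟩, ⟨-4, 2⟩, ⟨-4, 2⟩, ⟨-4, 2⟩, ⟨-4, 2⟩, ⟨-4, 2⟩, ⟨-4, 2⟩, ⟨-4, 2⟩, ⟨-4, 2⟩, ⟨-4, 2⟩, ⟨-4, 2⟩, ⟨-4, 2⟩]
def tp : Fin 24 → Fin 24 := ![0, 11, 10, 9, 8, 7, 6, 5, 4, 3, 2, 1, 21, 20, 19, 18, 17, 16, 15, 14, 13, 12, 23, 22]
def tl : Fin 24 → Fin 24 := ![8, 7, 6, 5, 4, 3, 2, 1, 0, 11, 10, 9, 17, 16, 15, 14, 13, 12, 23, 22, 21, 20, 19, 18]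
def QP : Fin 24 → ℚ × ℚ := ![(6 / 13, 3 / 13), (6 / 11, 2 / 11), (1 / 1, 0 / 1), (4 / 3, -2 / 3), (3 / 1, -3 / 1), (0 / 1, 1 / 1), (1 / 1, -3 / 1), (1 / 3, -2 / 3), (0 / 1, 0 / 1), (3 / 11, 2 / 11), (4 / 13, 3 / 13), (1 / 3, 1 / 3), (5 / 9, 1 / 9), (4 / 5, -1 / 5), (2 / 2, -1 / 2), (3 / 3, -2 / 3), (2 / 3, -2 / 3), (1 / 2, -1 / 2), (2 / 5, -1 / 5), (3 / 9, 1 / 9), (2 / 6, 1 / 6), (4 / 11, 2 / 11), (5 / 11, 2 / 11), (3 / 6, 1 / 6)]
def QL : Fin 24 → ℚ × ℚ × ℚ := ![(14, 11, 9), (-3, -2, -2), (1, 0, 1), (0, -3, 2), (-1, -1, 0), (3, 1, 1), (-14, -3, -5), (-3, 0, -1), (1, -2, 0), (0, -11, -2), (-1, -3, -1), (-3, -3, -2), (7, 1, 4), (1, -1, 1), (-1, -2, 0), (-7, -6, -3), (5, 2, 2), (-5, -1, -2), (7, -1, 3), (1, -3, 0), (-1, -4, -1), (-7, -8, -4), (-5, -4, -3), (-5, -3, -3)]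
def sg (i : Fin 24) : Fin 24 := ⟨12 * (i / 12) + (i + 1) % 12, by omega⟩
def ring (i : Fin 24) : Fin 2 := ⟨i / 12, by omega⟩
def J (i j : Fin 24) : Prop := Nat.testBit 131439567248888999866417078646364274074154318658136895594816637206308944438498584559185012347503413989130622677116296635898048623560820761792251262975593711205305454201929985 (24 * i.val + j.val) = true
instance (i j : Fin 24) : Decidable (J i j) := inferInstanceAs (Decidable (_ = true))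

noncomputable def f : Z →+* ℝ := Zsqrtd.toReal (by norm_num)
theorem finj : Function.Injective f := Zsqrtd.toReal_injective _ (by
  intro n h
  have : n ≤ 1 ∨ 2 ≤ n := by omega
  have : n ≤ -2 ∨ -1 ≤ n := by omega
  rcases ‹n ≤ 1 ∨ 2 ≤ n› with a | a <;> rcases this with b | b <;>
    first | nlinarith | (interval_cases n <;> omega))
noncomputable def cx (u : Z × Z) : ℂ := ⟨f u.1, f u.2⟩
noncomputable def P (i : Fin 24) : ℂ := cx (PT i)
noncomputable def LL (j : Fin 24) : Set ℂ := {z | f (NT j).1 * z.re + f (NT j).2 * z.im = f (CT j)}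

theorem nc {α : Type} [Fintype α] (p : α → Prop) [DecidablePred p] :
    {i | p i}.ncard = (Finset.univ.filter p).card := by
  rw [← Set.ncard_coe_finset]; congr 1; ext; simp

theorem hom : om 12 = ⟨√3 / 2, 1 / 2⟩ := by
  have : (2 * Real.pi * Complex.I / (12 : ℕ) : ℂ) = (Real.pi / 6 : ℝ) * Complex.I := by
    push_cast; ring
  rw [om, this, exp_mul_I, ← ofReal_cos, ← ofReal_sin, Real.cos_pi_div_six, Real.sin_pi_div_six]
  apply Complex.ext <;> simp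

theorem hn : ‖om 12‖ = 1 := by
  have : (2 * Real.pi * Complex.I / (12 : ℕ) : ℂ) = (Real.pi / 6 : ℝ) * Complex.I := by
    push_cast; ring
  rw [om, this, norm_exp_ofReal_mul_I]

theorem rw1 (u v : Z × Z) (h : 2 * v.1 = Zsqrtd.sqrtd * u.1 - u.2 ∧
    2 * v.2 = u.1 + Zsqrtd.sqrtd * u.2) : om 12 * cx u = cx v := by
  have a := congrArg f h.1
  have b := congrArg f h.2
  have s : f Zsqrtd.sqrtd = √3 := by simp [f]
  simp only [map_mul, map_sub, map_add, s, map_ofNat] at a b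
  rw [hom]
  apply Complex.ext <;> simp only [cx, mul_re, mul_im] <;> linarith

theorem rP (i : Fin 24) : om 12 * P i = P (sg i) := rw1 _ _ (by revert i; decide +kernel)
theorem rN (i : Fin 24) : om 12 * cx (NT i) = cx (NT (sg i)) := rw1 _ _ (by revert i; decide +kernel)
theorem cP (i : Fin 24) : (starRingEnd ℂ) (P i) = P (tp i) := by
  have : (PT (tp i)).1 = (PT i).1 ∧ (PT (tp i)).2 = -(PT i).2 := by revert i; decide +kernel
  apply Complex.ext <;> simp [P, cx, this]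

theorem rL (i : Fin 24) : (fun z => om 12 * z) '' LL i = LL (sg i) := by
  have c : CT (sg i) = CT i := by revert i; decide +kernel
  have a := congrArg re (rN i)
  have b := congrArg im (rN i)
  have s : √3 * √3 = 3 := Real.mul_self_sqrt (by norm_num)
  rw [hom] at a b
  simp only [cx, mul_re, mul_im] at a b
  ext z
  simp only [LL, Set.mem_image, Set.mem_setOf_eq, ← a, ← b, c, hom]
  constructor
  · rintro ⟨w, h, rfl⟩
    simp only [mul_re, mul_im]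
    linear_combination h + (f (NT i).1 * w.re + f (NT i).2 * w.im) / 4 * s
  · intro h
    refine ⟨⟨√3 / 2 * z.re + z.im / 2, √3 / 2 * z.im - z.re / 2⟩, by linear_combination h, ?_⟩
    apply Complex.ext <;> simp only [mul_re, mul_im]
    · linear_combination z.re / 4 * s
    · linear_combination z.im / 4 * s

theorem cL (i : Fin 24) : (starRingEnd ℂ) '' LL i = LL (tl i) := by
  have : (NT (tl i)).1 = (NT i).1 ∧ (NT (tl i)).2 = -(NT i).2 ∧ CT (tl i) = CT i := by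
    revert i; decide +kernel
  ext z
  simp only [LL, Set.mem_image, Set.mem_setOf_eq, this, map_neg]
  constructor
  · rintro ⟨w, h, rfl⟩
    simpa using h
  · intro h
    exact ⟨(starRingEnd ℂ) z, by simpa using h, by simp⟩

theorem rP' (j : ℕ) (i : Fin 24) : om 12 ^ j * P i = P (sg^[j] i) := by
  induction j with
  | zero => simp
  | succ j ih => rw [pow_succ', mul_assoc, ih, rP, Function.iterate_succ_apply']

theorem rL' (j : ℕ) (i : Fin 24) : (fun z => om 12 ^ j * z) '' LL i = LL (sg^[j] i) := by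
  induction j with
  | zero => simp
  | succ j ih =>
    rw [Function.iterate_succ_apply', ← rL, ← ih, Set.image_image]
    simp only [pow_succ', mul_assoc]

theorem mem (i j : Fin 24) : P i ∈ LL j ↔ J i j := by
  have : (NT j).1 * (PT i).1 + (NT j).2 * (PT i).2 = CT j ↔ J i j := by
    revert i j; decide +kernel
  rw [← this, ← finj.eq_iff, map_add, map_mul, map_mul]; rfl

theorem jinj (j k : Fin 24) (h : ∀ i, J i j ↔ J i k) : j = k := by revert j k; decide +kernel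

theorem Pi : Function.Injective P := by
  intro i k h
  have : ∀ i k : Fin 24, (∀ j, J i j ↔ J k j) → i = k := by decide +kernel
  exact this i k fun j => by rw [← mem, ← mem, h]

theorem Li : Function.Injective LL := fun j k h => jinj j k fun i => by rw [← mem, ← mem, h]

theorem mk (g : ℂ → ℂ) (hg : Isometry g) (a b : Fin 24 → Fin 24) (ha : Function.Surjective a)
    (hb : Function.Surjective b) (h1 : ∀ i, g (P i) = P (a i)) (h2 : ∀ i, g '' LL i = LL (b i)) :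
    Sym P LL g := by
  refine ⟨hg, ?_, ?_⟩
  · rw [← Set.range_comp, show g ∘ P = P ∘ a from funext h1, ha.range_comp]
  · rw [← Set.range_comp, show (fun l => g '' l) ∘ LL = LL ∘ b from funext h2, hb.range_comp]

theorem ss (j : ℕ) : Function.Surjective sg^[j] :=
  Function.Surjective.iterate (by decide +kernel) j

theorem iso (j : ℕ) : Isometry fun z => om 12 ^ j * z := by
  refine Isometry.of_dist_eq fun x y => ?_
  rw [dist_eq, dist_eq, ← mul_sub, norm_mul, norm_pow, hn, one_pow, one_mul]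

theorem symR (j : ℕ) : Sym P LL fun z => om 12 ^ j * z := mk _ (iso j) _ _ (ss j) (ss j) (rP' j) (rL' j)

theorem cL' (j : ℕ) (i : Fin 24) :
    (fun z => om 12 ^ j * (starRingEnd ℂ) z) '' LL i = LL (sg^[j] (tl i)) := by
  rw [← rL', ← cL, Set.image_image]

theorem symC (j : ℕ) : Sym P LL fun z => om 12 ^ j * (starRingEnd ℂ) z :=
  mk _ ((iso j).comp isometry_conj) (fun i => sg^[j] (tp i)) (fun i => sg^[j] (tl i))
    ((ss j).comp (by decide +kernel)) ((ss j).comp (by decide +kernel))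
    (fun i => by rw [cP, rP']) (cL' j)

def d2 (i k : Fin 24) : Z := ((PT i).1 - (PT k).1) ^ 2 + ((PT i).2 - (PT k).2) ^ 2

theorem hd (i k : Fin 24) : dist (P i) (P k) ^ 2 = f (d2 i k) := by
  rw [dist_eq, Complex.sq_norm, normSq_apply]
  simp [d2, P, cx, sq]

theorem three (g h : ℂ → ℂ) (hg : Isometry g) (hh : Isometry h) (hs : Function.Surjective h)
    (e : ∀ i ∈ [0, 3, 6], g (P i) = h (P i)) (z : ℂ) : g z = h z := by
  obtain ⟨w, hw⟩ := hs (g z)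
  have k : ∀ i ∈ [0, 3, 6], dist w (P i) ^ 2 = dist z (P i) ^ 2 := fun i hi => by
    rw [← hh.dist_eq, hw, ← e i hi, hg.dist_eq]
  have a := k 0 (by simp)
  have b := k 3 (by simp)
  have c := k 6 (by simp)
  have p0 : P 0 = ⟨2, 0⟩ := by apply Complex.ext <;> simp [P, cx, PT, f]
  have p2 : P 3 = ⟨0, 2⟩ := by apply Complex.ext <;> simp [P, cx, PT, f]
  have p4 : P 6 = ⟨-2, 0⟩ := by apply Complex.ext <;> simp [P, cx, PT, f]
  simp only [dist_eq, Complex.sq_norm, normSq_apply, p0, p2, p4, sub_re, sub_im] at a b c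
  rw [← hw]; congr 1
  apply Complex.ext <;> linarith

theorem o0 (j : ℕ) : om 12 ^ j ≠ 0 := pow_ne_zero _ (exp_ne_zero _)

theorem only (g : ℂ → ℂ) (h : Sym P LL g) : ∃ j : ℕ, (∀ z, g z = om 12 ^ j * z) ∨
    ∀ z, g z = om 12 ^ j * (starRingEnd ℂ) z := by
  have im : ∀ i, ∃ k, P k = g (P i) := fun i => by
    have : g (P i) ∈ Set.range P := h.2.1 ▸ ⟨_, ⟨i, rfl⟩, rfl⟩
    exact this
  choose a ha using im
  have dd : ∀ i k, d2 (a i) (a k) = d2 i k := fun i k =>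
    finj (by rw [← hd, ← hd, ha, ha, h.1.dist_eq])
  have key : ∀ x z : Fin 24, d2 x z = d2 0 6 → ∀ y, d2 x y = d2 0 3 → d2 y z = d2 3 6 →
      ∃ j < 12, x = sg^[j] 0 ∧ z = sg^[j] 6 ∧ (y = sg^[j] 3 ∨ y = sg^[j] 9) := by decide +kernel
  obtain ⟨j, -, x, z, y | y⟩ := key _ _ (dd 0 6) _ (dd 0 3) (dd 3 6)
  · refine ⟨j, Or.inl (three g _ h.1 (iso j) (mul_left_surjective₀ (o0 j)) ?_)⟩
    simp only [List.mem_cons, List.not_mem_nil, or_false, forall_eq_or_imp, forall_eq, rP', ← ha,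
      x, y, z, and_self]
  · refine ⟨j, Or.inr (three g _ h.1 (symC j).1
      ((mul_left_surjective₀ (o0 j)).comp (star_involutive.surjective)) ?_)⟩
    simp only [List.mem_cons, List.not_mem_nil, or_false, forall_eq_or_imp, forall_eq, cP, rP', ← ha,
      x, y, z]
    exact ⟨rfl, rfl, rfl⟩

theorem rs (j : ℕ) (i : Fin 24) : ring (sg^[j] i) = ring i := by
  induction j with
  | zero => rfl
  | succ j ih =>
    rw [Function.iterate_succ_apply', ← ih]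
    exact (by decide +kernel : ∀ i, ring (sg i) = ring i) _

theorem tr : ∀ i k, ring i = ring k → ∃ j < 12, sg^[j] i = k := by decide +kernel

/-- An astral (2-astral) configuration `(24_4)` whose underlying combinatorial configuration has a rational
realization. -/
theorem result : ∃ (m : ℕ) (I : Fin (2 * m) → Fin (2 * m) → Prop) (p : Fin (2 * m) → ℂ)
    (L : Fin (2 * m) → Set ℂ), KAstral 2 m I p L ∧ ∃ q M, RatRealizes I q M := by
  have hq : ∀ i j, (QL j).1 * (QP i).1 + (QL j).2.1 * (QP i).2 = (QL j).2.2 ↔ J i j := by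
    decide +kernel
  refine ⟨12, J, P, LL, ⟨by norm_num, by norm_num, ⟨?_, ?_, ?_⟩, ⟨Pi, Li, fun j => ⟨_, _, _, ?_, rfl⟩,
    mem⟩, ⟨0, 1, by simp, fun g => ⟨fun h => by simpa using only g h, ?_⟩⟩, ring, ring,
    fun i k => ⟨fun h => ?_, ?_⟩, fun i k => ⟨fun h => ?_, ?_⟩, ?_, ?_, fun o => ?_, ?_, ?_⟩, QP,
    fun j => {z | (QL j).1 * z.1 + (QL j).2.1 * z.2 = (QL j).2.2}, by decide +kernel,
    fun j k h => jinj j k fun i => ?_, fun j => ⟨_, _, _, by revert j; decide +kernel, rfl⟩, hq⟩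
  · simp only [nc]; decide +kernel
  · simp only [nc]; decide +kernel
  · have : ∀ i j, J i j → ∀ i', J i' j → i ≠ i' → ∀ j', J i j' → J i' j' → j = j' := by
      decide +kernel
    exact fun i i' j j' h a b c d => this i j a i' b h j' c d
  · rw [← map_zero f, finj.ne_iff, finj.ne_iff]; revert j; decide +kernel
  · rintro ⟨j, h | h⟩ <;> simp only [zero_add, sub_zero, one_mul] at h <;> rw [funext h]
    exacts [symR j, symC j]
  · obtain ⟨j, -, rfl⟩ := tr i k h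
    exact ⟨_, symR j, rP' j i⟩
  · rintro ⟨g, hg, e⟩
    obtain ⟨j, h | h⟩ := only g hg
    · rw [h, rP'] at e; rw [← Pi e, rs]
    · rw [h, cP, rP'] at e; rw [← Pi e, rs]
      exact (by decide +kernel : ∀ i, ring i = ring (tp i)) i
  · obtain ⟨j, -, rfl⟩ := tr i k h
    exact ⟨_, symR j, rL' j i⟩
  · rintro ⟨g, hg, e⟩
    obtain ⟨j, h | h⟩ := only g hg
    · rw [funext h, rL'] at e; rw [← Li e, rs]
    · rw [funext h, cL'] at e; rw [← Li e, rs]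
      exact (by decide +kernel : ∀ i, ring i = ring (tl i)) i
  · simp only [nc]; decide +kernel
  · simp only [nc]; decide +kernel
  · obtain ⟨i, rfl⟩ := (by decide +kernel : Function.Surjective ring) o
    refine ⟨0, P i, fun h => ?_, ?_⟩
    · have a := congrArg re h
      have b := congrArg im h
      simp only [P, cx, zero_re, zero_im, map_eq_zero_iff f finj] at a b
      clear h; revert i; decide +kernel
    · ext z
      simp only [zero_add, sub_zero, rP', Set.mem_image, Set.mem_setOf_eq, Set.mem_range]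
      constructor
      · rintro ⟨k, h, rfl⟩
        obtain ⟨j, -, rfl⟩ := tr i k h.symm
        exact ⟨j, rfl⟩
      · rintro ⟨j, rfl⟩
        exact ⟨_, rs j i, rfl⟩
  · simp only [nc]; decide +kernel
  · simp only [nc]; decide +kernel
  · rw [← hq, ← hq]
    exact Set.ext_iff.1 h (QP i)

end Pool.Agent.Results.MP_b542c4_co.Astral
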